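import Pool.Agent.H780.RL.Dist
import Pool.Agent.H780.RL.All

/-!
# Convex regions of the open hemisphere, changed inside a ball

Let `Ω` be a closed convex region of the open hemisphere of `S^n`, for instance a ball of any radius
`R < π/2`.  Let `D` be a closed convex region, a Lipschitz image of the unit ball, which is contained in `Ω`
and in a ball of radius `arcsin s` of `S^n` with centre `c`, where `s` is in an explicit range: 71.2 degrees
for `n = 2`, 61.6 degrees for `n = 3`, `s ≤ 0.825` for `n = 4`, `(n + 3) s⁴ ≤ 2` for all `n`.  The centre `c`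
is arbitrary, it need not be in `Ω`, and `D` may meet the boundary of `Ω`.  Let `M` be the union of `Ω`
without the interior of `D` and of a space `K`, glued along the boundary of `D`, where `K` is an oriented
Riemannian manifold of any topology with boundary a sphere.  If the distances in `M` of the points of
the boundary of `Ω` are at least their distances in `S^n`, then the volume of `K` is at least the volume
of `D`, so that the volume of `M` is at least the volume of `Ω`; and if the volumes are equal, then `K` is
isometric to `D`, and `M` is isometric to `Ω`.  So `Ω` is boundary rigid, in the strong sense of the theory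
of minimal fillings (only `d' ≥ d`, `vol' ≤ vol`), among all metrics, and all manifolds, which agree with it
outside a ball of radius `arcsin s` with any centre: the changed metric need not be simple and the
manifold need not be a ball.

It is sufficient to take the volume of the part `A` of `K` near its boundary, of the points at distance
less than `r x` from some boundary point `bd x`, where `r x` is at least the distance of the corresponding
point `F x` of `D` from `c`, and only `A` has to be an oriented manifold.

Proof.  Let `a ≠ b` be boundary points of `D`.  The great circle through `a` and `b` is continued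
beyond `a` and beyond `b` until it leaves `Ω` in points `x` and `y` of the boundary of `Ω` (`RL/Arc`).  As
`D` is convex, the arcs from `x` to `a` and from `b` to `y` do not meet the interior of `D`.  So
`d(x, y) ≤ d_M(x, y) ≤ d(x, a) + d_M(a, b) + d(b, y)`, and as `d(x, y) = d(x, a) + d(a, b) + d(b, y)`,
this gives `d_K(a, b) ≥ d(a, b)` (`RL/Dist`).  So `K` has at least the boundary distances of the convex
region `D` of the ball about `c`; the theorem on the boundary rigidity of such regions applies
(ConvexSphericalRegions for `n ≥ 3` and MP_ecf18f_gt.ConvexDiscs for `n = 2`, see `RL/All`).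
-/

set_option autoImplicit false

open MeasureTheory Metric Set InnerProductGeometry

namespace Pool.Agent.Results.MP_07cd05_gt.ChangedInsideConvex

open Pool.Agent.H241R3.FV Pool.Agent.N526.CP Pool.Agent.N979.CP Pool.Agent.H780.NV
open Pool.Agent.Results.MP_aeade1_gt.RoundRegions (Adm setVol)

/-- `s` is admissible for the dimension `n = d + 1`: `s ≤ 0.947` for `n = 2`, and for `n ≥ 3` the condition
`Adm` of the library (`s ≤ 0.88` for `n = 3`, `s ≤ 0.825` for `n = 4`, or `(n + 3) s⁴ ≤ 2`, and more). -/
def Admissible (d : ℕ) (s : ℝ) : Prop := (d = 1 ∧ s ≤ 947 / 1000) ∨ (2 ≤ d ∧ Adm d s)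

/-- `C` is the cone over a closed convex region `Ω` of the open hemisphere with pole `m`; the region `Ω`
consists of the unit vectors in `C`.  For the ball of radius `R < π/2` about `m` the cone is the set of
the `z` with `cos R ‖z‖ ≤ ⟨z, m⟩`. -/
structure RegionCone {N : ℕ} (m : E N) (C : Set (E N)) : Prop where
  closed : IsClosed C
  convex : Convex ℝ C
  smul : ∀ z ∈ C, ∀ t : ℝ, 0 ≤ t → t • z ∈ C
  hemi : ∀ z ∈ C, z ≠ 0 → 0 < inner ℝ z m

/-- The central projection of the open hemisphere.  The point `X` of the open unit ball stands for
the point of the hemisphere with orthogonal projection `X`; great circles are mapped to straight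
lines. -/
noncomputable def gnomonic {n : ℕ} (X : E n) : E n := (√(1 - ‖X‖ ^ 2))⁻¹ • X

/-- `F` is a Lipschitz homeomorphism, preserving the orientation, of the closed unit ball onto a closed
convex region (its central projection is convex) in the cap of radius `arcsin s`, the open ball is
mapped onto the interior; `r x > 0` is at least the distance of `F x` from the centre of the cap. -/
structure ConvexRegion {n : ℕ} (s : ℝ) (F : E n → E n) (r : Sph n → ℝ) : Prop where
  lip : ∃ L : NNReal, LipschitzOnWith L F (closedBall 0 1)
  range : ∀ y ∈ closedBall (0 : E n) 1, ‖F y‖ ≤ s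
  inj : InjOn F (closedBall 0 1)
  int : F '' ball 0 1 = interior (F '' closedBall 0 1)
  convex : Convex ℝ (gnomonic '' (F '' closedBall 0 1))
  orient : ∀ᵐ y ∂(volume.restrict (ball (0 : E n) 1)), 0 ≤ (fderiv ℝ F y).det
  radius : ∀ x : Sph n, 0 < r x ∧ Real.arcsin ‖F x‖ ≤ r x
  bdd : ∃ B : ℝ, ∀ x, r x ≤ B

/-- The point of the unit sphere `S^n` of `E (n + 1)`, in the open hemisphere with pole `c`, with
orthogonal projection `X`; `J` is a linear isometry onto the orthogonal complement of `c`. -/
noncomputable def pt {n : ℕ} (c : E (n + 1)) (J : E n →ₗᵢ[ℝ] E (n + 1)) (X : E n) : E (n + 1) :=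
  √(1 - ‖X‖ ^ 2) • c + J X

/-- The cone over the interior of the region `D = F (closed unit ball)` of the sphere. -/
def cone {n : ℕ} (F : E n → E n) (c : E (n + 1)) (J : E n →ₗᵢ[ℝ] E (n + 1)) : Set (E (n + 1)) :=
  {z | ∃ t : ℝ, 0 < t ∧ ∃ X ∈ F '' ball 0 1, z = t • pt c J X}

/-- `M` consists of the round piece, the region `Ω` with the cone `C` without the interior of the
region `D = F (closed unit ball)` of the cap about `c`, and of the space `K`, glued along the boundary
of `D`. -/
structure Glued {n : ℕ} {K M : Type} [MetricSpace K] [MetricSpace M] (bd : Sph n → K)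
    (F : E n → E n) (C : Set (E (n + 1))) (c : E (n + 1)) (J : E n →ₗᵢ[ℝ] E (n + 1)) (j : K → M)
    (ι : E (n + 1) → M) : Prop where
  /-- `J` maps to the orthogonal complement of the unit vector `c` -/
  orth : ‖c‖ = 1 ∧ ∀ v, inner ℝ (J v) c = 0
  /-- `D` is contained in `Ω` -/
  sub : ∀ y ∈ closedBall (0 : E n) 1, pt c J (F y) ∈ C
  /-- the map of the inner part is `1`-Lipschitz -/
  inside : ∀ x y, dist (j x) (j y) ≤ dist x y
  /-- the map of the round piece does not increase the lengths of great circle segments of `Ω` which
  avoid the interior of `D` -/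
  outside : ∀ x y : E (n + 1), ‖x‖ = 1 → ‖y‖ = 1 → x ∈ C → y ∈ C →
    (∀ s t : ℝ, 0 ≤ s → 0 ≤ t → s • x + t • y ∉ cone F c J) → dist (ι x) (ι y) ≤ angle x y
  /-- the maps agree on the boundary of `D` -/
  glue : ∀ x : Sph n, ι (pt c J (F x)) = j (bd x)

/-- The distances in `M` of the points of the boundary of `Ω` are at least their distances in the
sphere. -/
def NoShortcuts {N : ℕ} {M : Type} [MetricSpace M] (C : Set (E N)) (ι : E N → M) : Prop :=
  ∀ x y : E N, ‖x‖ = 1 → ‖y‖ = 1 → x ∈ C → y ∈ C → x ∉ interior C → y ∉ interior C →
    angle x y ≤ dist (ι x) (ι y)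

/-- Any two points of `K` are joined by a shortest path, in the form: there are points at all
intermediate distances from them. -/
def Geodesic (K : Type) [MetricSpace K] : Prop :=
  ∀ (q q' : K) (t : ℝ), 0 ≤ t → t ≤ dist q q' → ∃ p, dist q p = t ∧ dist p q' = dist q q' - t

/-- Let `n = d + 1 ≥ 2`, let `s > 0` be admissible, let `K` be a metric space with compact closed balls,
for example a complete Riemannian manifold, and let the subset `N` of `K` be an oriented Riemannian
manifold with boundary `bd : S^d → K` (`N = K` if `K` is itself oriented and has no other boundary).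
Let `Ω` be a closed convex region, with cone `C`, of the open hemisphere, let `D` be a convex region in
`Ω` and in the ball of radius `arcsin s` about `c`, let `M` be the union of `Ω` without the interior of `D`
and `K`, glued along the boundary of `D`, and let the distances in `M` of the points of the boundary of
`Ω` be at least their distances in the sphere.  Let `N` contain the set `A` of the points of `K` at distance
less than `r x` from some boundary point `bd x`.
(1) The volume of `A` is at least the volume of `D`.
(2) If it is equal to it and if shortest paths exist in `K`, then there is an isometric map `Φ` of `D`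
to `K` with `Φ (F x) = bd x` on the boundary, whose image contains `A` and which maps `D` without the
centre `c` to `A`.  If `N = K`, then `K` is the image of `Φ`. -/
theorem result (d : ℕ) (s : ℝ) (h0 : 0 < s) (hs : Admissible d s)
    (K : Type) [MetricSpace K] [ProperSpace K] (bd : Sph (d + 1) → K) (N : Set K)
    (S : NFill (d + 1) K bd N) (F : E (d + 1) → E (d + 1)) (r : Sph (d + 1) → ℝ)
    (hF : ConvexRegion s F r) (hN : near bd r ⊆ N) (M : Type) [MetricSpace M] (m c : E (d + 2))
    (C : Set (E (d + 2))) (hC : RegionCone m C)
    (J : E (d + 1) →ₗᵢ[ℝ] E (d + 2)) (j : K → M) (ι : E (d + 2) → M)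
    (hG : Glued bd F C c J j ι) (hM : NoShortcuts C ι) :
    ENNReal.ofReal (setVol (F '' ball 0 1)) ≤ S.part (near bd r) ∧
    (Geodesic K → S.part (near bd r) = ENNReal.ofReal (setVol (F '' ball 0 1)) →
      ∃ Φ : E (d + 1) → K,
        (∀ y ∈ F '' closedBall 0 1, ∀ z ∈ F '' closedBall 0 1, dist (Φ y) (Φ z) = hdist y z) ∧
        (∀ x : Sph (d + 1), Φ (F x) = bd x) ∧
        near bd r ⊆ Φ '' (F '' closedBall 0 1) ∧
        Φ '' (F '' closedBall 0 1 \ {0}) ⊆ near bd r ∧
        (N = univ → Φ '' (F '' closedBall 0 1) = univ)) := by
  have hs' : H780.RL.AdmR d s := hs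
  have hG2 : Good2 d s := Fin.good2_all hs'.adm.1 h0 hs'.adm.2
  obtain ⟨⟨L, hL⟩, hr, hinj, hint, hconv, hor, hrad, B, hB⟩ := hF
  have hreg : H780.RG.CReg F := ⟨hL.continuousOn, fun y hy => (hr y hy).trans_lt hG2.2.1, hinj,
    hint, hconv⟩
  have hdist : ∀ x y : Sph (d + 1), hdist (F x) (F y) ≤ dist (bd x) (bd y) :=
    H780.RL.dist_le hreg hC.closed hC.smul hC.hemi hG.orth.1 hG.orth.2
      (fun x => hG.sub x (sphere_subset_closedBall x.2)) hG.inside hG.outside hG.glue hM
  exact H780.RL.rigid_all h0 hs' S ⟨⟨L, hL⟩, hr, hdist, hrad, B, hB⟩ hinj hint hconv hor hN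

end Pool.Agent.Results.MP_07cd05_gt.ChangedInsideConvex
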