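import Pool.Agent.H780.HG.Asm
import Pool.Agent.H780.HG.GLU
import Pool.Agent.H780.HG.HLEN
import Pool.Agent.H780.HG.FILLG
import Pool.Agent.H780.HG.HEP
import Pool.Agent.H780.HG.GRET
import Pool.Agent.H780.HG.GEO
import Pool.Agent.H780.HG.CORA

/-!
# Convex regions of the round hemisphere are boundary rigid in high dimensions

Let `0 < R < π/2`.  There is a number `n₀`, depending only on `R`, with `n₀ = 2` if `sin² R ≤ 5/41`
(that is, `R ≤ 20.4°`), such that for `n ≥ n₀` every closed convex region `D` of the open ball of radius
`R` of the unit sphere `S^n` is boundary rigid in the strong sense of the theory of minimal fillings: let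
`M` be a Riemannian manifold (of any topology, with countably many charts, complete, any two points
joined by a shortest path) with boundary `bd : S^d → M`, `d = n - 1`, such that
* the distances of the boundary points are at least those in `S^n` of the corresponding points of `D`;
* the volume of `M` is at most the volume of `D`;
* there is no retraction of `M` onto its boundary sphere (this holds for compact manifolds).
Then there is an isometry `Φ` of `D` onto `M` with `Φ (F x) = bd x`, where `F : S^d → ∂D` is the
identification of the boundaries.

In particular neither the metric of `M` is assumed to be simple, nor the boundary of `M` to be convex,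
and the boundary distances and the volumes are compared in one direction only.  Simple metrics with the
same boundary distance function have the same volume (Santaló).

Proof.  The library contains the case where `D` is the ball of radius `R` itself (CapRigidity).  Glue the
complement `Z` of `D` in the closed ball `B` of radius `R` to `M` along `∂D`.  On the union `K` of `M` and
`Z` we use the distance
`min (d(q, q'), inf (d(q, bd x) + d(F x, F y) + d(bd y, q')))` in `M`, `inf (d(q, bd x) + d(F x, X))`
between `M` and `Z`, and the distance of the sphere in `Z`: it is a metric as the boundary distances of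
`M` are at least those of `D` (`GLU`).  The space `K` has Riemannian charts (`FILLG`; the boundary of `M` is
covered by a chart whose part used for the volume is a null set), its volume is at most that of `B`, its
boundary distances are those of `B`, and there is no retraction onto its boundary (`GRET`, `HEP`).
Shortest paths do not exist in `K`, but the first part of the proof of CapRigidity does not use them
(`CORA`): there is a map `P : K → B` such that `d(a, b) = d(P a, P b)` for all boundary points `b` of `K`,
and no proper closed subset of `K` is mapped onto `B`.  For a point `q` of `M` this implies (`Asm.rig`)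
that for every direction there is a boundary point `bd x` of `M` with `d(q, bd x) = d(P q, F x)` and `F x` on
the great circle from `P q` in this direction.  As `D` is convex and shortest paths exist in `M`, `P q` lies in
`D`, these distances are equal for all `x`, and points of `D` can be lifted to `M` along great circles
(as in the proof of the theorem ConvexSphericalRegions for the same problem).  If two points `q ≠ q'` of `M`
had the same image and `q'` is not on the boundary, then the complement of a small ball about `q'` in `K` would
be mapped onto `B`, a contradiction (`Asm.inj`).  So `P` is injective on `M`, and its inverse is the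
isometry.
-/

set_option autoImplicit false

namespace Pool.Agent.Results.MP_07cd05_gt.ConvexRegionsHighDimension

open Real MeasureTheory Metric Set Pool.Agent.H241R3.FV
open Pool.Agent.N526.CP (hdist)

/-- Any two points of `M` are joined by a shortest path, in the form: there are points at all
intermediate distances from them. -/
def Geodesic (M : Type) [MetricSpace M] : Prop :=
  ∀ (q q' : M) (t : ℝ), 0 ≤ t → t ≤ dist q q' → ∃ m, dist q m = t ∧ dist m q' = dist q q' - t

/-- Properties of the charts and of the boundary, which hold for Riemannian manifolds with compact
boundary: the boundary sphere is Lipschitz, the parts `D` of the charts do not meet the boundary,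
and every nonempty open set contains a set of positive measure of the part `D` of a chart. -/
structure Regular {d : ℕ} {M : Type} [MetricSpace M] (S : Fill d M) : Prop where
  lip : ∃ L : NNReal, LipschitzWith L S.bd
  off : ∀ k, ∀ p ∈ (S.chart k).D, (S.chart k).map p ∉ range S.bd
  supp : ∀ W : Set M, IsOpen W → W.Nonempty →
    ∃ k, volume {x | x ∈ (S.chart k).D ∧ (S.chart k).map x ∈ W} ≠ 0

/-- The central projection of the open hemisphere.  The point `X` of the open unit ball stands for
the point `(X, √(1 - |X|²))` of the hemisphere; great circles are mapped to straight lines. -/
noncomputable def gnomonic {n : ℕ} (X : E n) : E n := (√(1 - ‖X‖ ^ 2))⁻¹ • X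

/-- `F` is a homeomorphism of the closed unit ball onto a closed region in the open ball of radius `R`
about the centre of the hemisphere, the open ball is mapped onto the interior of the region, and the
region is convex: its central projection is convex. -/
structure ConvexRegion {n : ℕ} (R : ℝ) (F : E n → E n) : Prop where
  cont : ContinuousOn F (closedBall 0 1)
  lt : ∀ y ∈ closedBall (0 : E n) 1, ‖F y‖ < sin R
  inj : InjOn F (closedBall 0 1)
  int : F '' ball 0 1 = interior (F '' closedBall 0 1)
  convex : Convex ℝ (gnomonic '' (F '' closedBall 0 1))

/-- The volume of the subset `A` of the hemisphere. -/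
noncomputable def setVol {n : ℕ} (A : Set (E n)) : ℝ := ∫ x in A, (√(1 - ‖x‖ ^ 2))⁻¹

/-- Let `0 < R < π/2`.  There is `n₀` (with `n₀ = 2` if `sin² R ≤ 5/41`) such that for `n = d + 1 ≥ n₀` the
following holds.  Let `M` be a metric space with compact closed balls, in which any two points are
joined by a shortest path, with countably many Riemannian charts of dimension `n` and with boundary
sphere `S.bd : S^d → M`, onto which `M` does not retract.  Let `F` map the closed unit ball onto the
convex region `D` in the open ball of radius `R` of `S^n`, let the distances in `M` of the boundary
points be at least the distances in `S^n` of their images, and let the volume of `M` be at most the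
volume of `D`.  Then there is an isometry `Φ` of `D` onto `M` with `Φ (F x) = S.bd x` for `x` in
`S^d`. -/
theorem result (R : ℝ) (hR0 : 0 < R) (hR1 : R < π / 2) :
    ∃ n₀ : ℕ, (sin R ^ 2 ≤ 5 / 41 → n₀ = 2) ∧ ∀ d : ℕ, 1 ≤ d → n₀ ≤ d + 1 →
    ∀ (M : Type) [MetricSpace M] [ProperSpace M] (_ : Geodesic M) (S : Fill d M)
      (_ : S.NoRetraction) (_ : Regular S)
      (F : E (d + 1) → E (d + 1)) (_ : ConvexRegion R F)
      (_ : ∀ x y : Sph (d + 1), hdist (F x) (F y) ≤ dist (S.bd x) (S.bd y))
      (_ : S.vol ≤ ENNReal.ofReal (setVol (F '' ball 0 1))),
      ∃ Φ : E (d + 1) → M,
        (∀ y ∈ F '' closedBall 0 1, ∀ z ∈ F '' closedBall 0 1, dist (Φ y) (Φ z) = hdist y z) ∧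
        (∀ x : Sph (d + 1), Φ (F x) = S.bd x) ∧
        Φ '' (F '' closedBall 0 1) = univ := by
  obtain ⟨d₀, hd₀, h⟩ := H780.HG.Asm.final H780.HG.GLU.main (H780.HG.FILLG.main H780.HG.HLEN.main)
    H780.HG.HEP.main H780.HG.GRET.main (H780.HG.GEO.main H780.RG.SPA.main
    (H780.RG.SPB.main H780.RG.SPC.main) H780.RG.SPC.main) H780.HG.CORA.main
    (H780.RG.RIGI.main H780.RG.SPA.main H780.RG.SPC.main) R hR0 hR1
  have h1 : sin R < 1 := by
    have h2 : 0 < cos R := cos_pos_of_mem_Ioo ⟨by linarith, hR1⟩
    have h3 := cos_sq_add_sin_sq R
    nlinarith
  refine ⟨max (d₀ + 1) 2, fun h2 => by rw [hd₀ h2]; rfl, fun d hd1 hd M _ _ hM S hnr hS F hF hbd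
    hV => ?_⟩
  obtain ⟨L, hL⟩ := hS.lip
  exact h d (by have := le_max_left (d₀ + 1) 2; omega) hd1 M hM S hnr L hL hS.supp hS.off F
    ⟨hF.cont, fun y hy => (hF.lt y hy).trans h1, hF.inj, hF.int, hF.convex⟩ hF.lt hbd hV

end Pool.Agent.Results.MP_07cd05_gt.ConvexRegionsHighDimension
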