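import Pool.Agent.H780.RG.Fin
import Pool.Agent.H780.RG.RIGI
import Pool.Agent.H780.RG.Whole
import Pool.Agent.Results.MP_aeade1_gt.NearVolume

/-!
# Convex regions of the round sphere are determined by their boundary distances and their volume

Let `n = d + 1 ≥ 3` and let `D` be a closed convex region, a Lipschitz image of the unit ball, of the
round cap of radius `arcsin s` of `S^n`, where `s` is in an explicit range (`s ≤ 0.88` for `n = 3`, that
is 61.6 degrees, `s ≤ 0.825` for `n = 4`, `(n + 3) s⁴ ≤ 2` for all `n`).  The library proves that `D` is a
minimal filling: the volume of an oriented manifold `M` with boundary a sphere, whose boundary distances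
are at least those of `D`, is at least the volume of `D`; and (NearVolume) this already holds for the
volume of the set `A` of the points close to the boundary.  Here we treat the case of equality: if the
volume of `A` is at most that of `D`, then `A` is isometric to `D` (possibly without the centre of the
cap), and the isometry is the given map on the boundary.  If the whole of `M` is a manifold with this
boundary, then `M` is isometric to `D`.  So `D` is boundary rigid in the strong sense of the theory of
minimal fillings (Burago, Ivanov): `M` is any complete manifold, its metric need not be simple, its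
boundary need not be convex, its topology is arbitrary, the distances and the volumes are only compared
in one direction.  Simple metrics with the same boundary distances have the same volume (Santaló).

Proof.  Points of the open hemisphere are given by their orthogonal projections `X` to the equatorial
space.  Let `g_θ`, `θ` in `S^d`, be the infimal convolutions of the boundary values `arcsin ⟨F x, θ⟩`,
truncated to `[-h, h]`, where `h` is the height of a point of `A` over the rest of `M`, and let
`X = Z⁻¹ (∫ g_θ θ dθ)`, where `Z X = ∫ arcsin ⟨X, θ⟩ θ dθ`.  The volume form of the library is
`(d+1) ∫ det D(U_θ(X) + g_θ θ) dθ - d det D(H(X))`; its integral is the volume of `D` by Stokes' theorem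
and it is at most the volume form of `A`.
(1) The case of equality at a point.  With the matrices `B`, `D` of the proof of the inequality, and
`n ≥ 3`, equality in the inequality `(∑ pᵢ zᵢ)² ≤ ∏ (1 + pᵢ (zᵢ² - 1))` gives `zᵢ = 1` for all `i`, and
equality in Hadamard's inequality gives that `B + D` is orthogonal.  Hence the Jacobian of `X` is `± 1`
if it is not zero, and if it is `1`, then `D = 0`, so that the derivative of `g_θ - arcsin ⟨X, θ⟩`
vanishes for almost all `θ` (`Ptwe`).  The integral of the Jacobian of `X` is also the volume of `D`, so
that it is `1` almost everywhere (`Eqv`).
(2) Hence for almost all `θ` the locally Lipschitz function `g_θ - arcsin ⟨X, θ⟩` has derivative zero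
almost everywhere; it is locally constant off the boundary, and zero on the boundary.  As a shortest path
from a point of `A` to the boundary point which makes `A` a neighbourhood remains in `A`, it is zero
on `A` (`Ident`).
(3) As the infimum in the definition of `g_θ` is attained, for each `q` in `A` and each `θ` there is a
boundary point `x` with `d(q, x) = d(X q, F x)`, such that `F x` lies on the ray in the central projection
from `X q` in the direction `-θ`.  By the convexity of `D`, all boundary points are obtained, `X q` lies
in `D`, and shortest paths from `q` to the boundary are mapped to great circles, so that points of `D`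
can be lifted (`RIGI`, `ISOA`).
(4) If two points had the same image, then the complement of a neighbourhood of one of them would be
mapped onto the interior of `D` without the centre, and it has less volume, contrary to the area
inequality (`AREA`, `INJ`).  So `X` is injective, and its inverse is the isometry (`ISOB`, `UNIV`).
-/

set_option autoImplicit false

open MeasureTheory Metric Set InnerProductGeometry

namespace Pool.Agent.Results.MP_07cd05_gt.ConvexSphericalRegions

open Pool.Agent.H241R3.FV Pool.Agent.N526.CP Pool.Agent.N979.CP Pool.Agent.H780.NV
open Pool.Agent.Results.MP_aeade1_gt.RoundRegions (Adm mapVol setVol)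
open Pool.Agent.Results.MP_aeade1_gt.NearVolume (Dominates)

/-- Any two points of `M` are joined by a shortest path, in the form: there are points at all
intermediate distances from them. -/
def Geodesic (M : Type) [MetricSpace M] : Prop :=
  ∀ (q q' : M) (t : ℝ), 0 ≤ t → t ≤ dist q q' → ∃ m, dist q m = t ∧ dist m q' = dist q q' - t

/-- The central projection of the open hemisphere.  The point `X` of the open unit ball stands for
the point `(X, √(1 - |X|²))` of the hemisphere; great circles are mapped to straight lines. -/
noncomputable def gnomonic {n : ℕ} (X : E n) : E n := (√(1 - ‖X‖ ^ 2))⁻¹ • X

/-- `F` is an injective map of the closed unit ball onto a closed region of the hemisphere, the open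
ball is mapped onto the interior of the region, and the region is convex: its central projection is
convex. -/
structure ConvexRegion {n : ℕ} (F : E n → E n) : Prop where
  inj : InjOn F (closedBall 0 1)
  int : F '' ball 0 1 = interior (F '' closedBall 0 1)
  convex : Convex ℝ (gnomonic '' (F '' closedBall 0 1))

/-- Let `n = d + 1 ≥ 3`, let `s > 0` be admissible, let `M` be a metric space with compact closed balls in
which any two points are joined by a shortest path, for example a complete connected Riemannian manifold,
and let the subset `N` of `M` be an oriented Riemannian manifold with boundary `bd : S^d → M` (`N = M` if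
`M` is itself oriented and has no other boundary).  Let `F` map the closed unit ball onto the convex region
`D` in the cap of radius `arcsin s` of `S^n`, let the distances in `M` of the boundary points be at least
the distances in `S^n` of their images, and let `N` contain the set `A` of the points at distance less
than `r x` from some boundary point `bd x`, where `r x` is at least the distance of `F x` from the centre
of the cap.  If the volume of `A` is at most the volume of `D`, then there is an isometric map `Φ` of `D`
to `M` with `Φ (F x) = bd x` on the boundary, whose image contains `A` and which maps `D` without the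
centre of the cap to `A`.  If `N = M`, then `M` is the image of `Φ`. -/
theorem result (d : ℕ) (hd : 2 ≤ d) (s : ℝ) (h0 : 0 < s) (hs : Adm d s)
    (M : Type) [MetricSpace M] [ProperSpace M] (hM : Geodesic M) (bd : Sph (d + 1) → M) (N : Set M)
    (S : NFill (d + 1) M bd N) (F : E (d + 1) → E (d + 1)) (r : Sph (d + 1) → ℝ)
    (hF : Dominates bd s F r) (hC : ConvexRegion F)
    (hor : ∀ᵐ y ∂(volume.restrict (ball (0 : E (d + 1)) 1)), 0 ≤ (fderiv ℝ F y).det)
    (hN : near bd r ⊆ N)
    (hV : S.part (near bd r) ≤ ENNReal.ofReal (setVol (F '' ball 0 1))) :
    ∃ Φ : E (d + 1) → M,
      (∀ y ∈ F '' closedBall 0 1, ∀ z ∈ F '' closedBall 0 1, dist (Φ y) (Φ z) = hdist y z) ∧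
      (∀ x : Sph (d + 1), Φ (F x) = bd x) ∧
      near bd r ⊆ Φ '' (F '' closedBall 0 1) ∧
      Φ '' (F '' closedBall 0 1 \ {0}) ⊆ near bd r ∧
      (N = univ → Φ '' (F '' closedBall 0 1) = univ) := by
  have hG : Good2 d s := Fin.good2_all (by omega) h0 hs
  obtain ⟨⟨L, hL⟩, hr, hbd, hrad, B, hB⟩ := hF
  have hb : ∀ x, bd x ∈ near bd r := fun x => ⟨x, by rw [dist_self]; exact (hrad x).1⟩
  obtain ⟨S', hS'⟩ := exists_restr S (N := near bd r) isOpen_near hN hb
  have hreg : H780.RG.CReg F := ⟨hL.continuousOn, fun y hy => (hr y hy).trans_lt hG.2.1, hC.inj,
    hC.int, hC.convex⟩
  rw [← hS'] at hV
  obtain ⟨Φ, h1, h2, h3, h4⟩ := H780.RG.Fin.rigid hd (H780.RG.RIGI.main H780.RG.SPA.main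
    H780.RG.SPC.main) hG hM S' hB F L hL hr hbd (fun x => (hrad x).2) hreg hor hV
  refine ⟨Φ, h1, h2, h3, h4, fun hu => ?_⟩
  subst hu
  exact H780.RG.Whole.whole (by omega) hM S hb hreg h1 h3 h4

end Pool.Agent.Results.MP_07cd05_gt.ConvexSphericalRegions
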